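import Pool.Agent.BEH.StmtsS
import Pool.Agent.BEG.Stmts
import Pool.Agent.Helper70_BE01.Conv

/-!
# Squad BEQ (MP_be01ff_an): generic domains. Definitions.

`D` is a bounded open set, the domains are its nonempty connected open subsets `Ω`; the distance of two
of them is the operator norm on `L²(D)` of the difference of the inverses of `- Δ`, extended by
zero.
-/

namespace Pool.Agent.BEQ

open Set Filter Topology MeasureTheory
open scoped InnerProductSpace ENNReal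
open Pool.Agent Pool.Agent.BE01 Pool.Agent.BEL Pool.Agent.BEH Pool.Agent.BEG

noncomputable section

section abs

variable {H : Type} [NormedAddCommGroup H] [InnerProductSpace ℝ H]

/-- `T` has the eigenvectors `v k` (orthonormal) with the eigenvalues `μ k > 0`, nonincreasing, and
vanishes on their orthogonal complement. -/
structure Dg (T : H →L[ℝ] H) (v : ℕ → H) (μ : ℕ → ℝ) : Prop where
  on : Orthonormal ℝ v
  ev : ∀ k, T (v k) = μ k • v k
  pos : ∀ k, 0 < μ k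
  anti : Antitone μ
  zero : ∀ h, (∀ k, ⟪v k, h⟫_ℝ = 0) → T h = 0

end abs

variable {d : ℕ}

/-- `T` is the inverse of `- Δ` in `Ω ⊂ D` (Dirichlet conditions), extended by zero. -/
def Rv (D Ω : Set (En d)) (T : Lp ℝ 2 (mu D) →L[ℝ] Lp ℝ 2 (mu D)) : Prop :=
  ∀ h : Lp ℝ 2 (mu D), ∃ (f u : Lp ℝ 2 (mu Ω)) (F : Lp (En d) 2 (mu Ω)), f =ᵐ[mu Ω] h ∧
    (u, F) ∈ H10 Ω ∧ Wk Ω F f ∧ T h =ᵐ[mu D] Ω.indicator u

/-- `u` solves `- Δ u = h` in `Ω`, `u = 0` on the boundary (for functions). -/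
def Sl (Ω : Set (En d)) (h u : En d → ℝ) : Prop :=
  ∃ F, BE01F.H10 Ω u F ∧ ∀ ψ, BE01F.Test Ω ψ →
    BE01F.intg Ω (fun x => ⟪F x, gradient ψ x⟫_ℝ) = BE01F.intg Ω (fun x => h x * ψ x)

/-- The distance of `Ω` and `Ω'` is at most `ε`: for every `h` with `‖h‖ ≤ 1` in `L²(D)` the
solutions of `- Δ u = h` in `Ω` and of `- Δ u' = h` in `Ω'`, extended by zero, satisfy
`‖u - u'‖ ≤ ε` in `L²(D)`. -/
def Near (D Ω Ω' : Set (En d)) (ε : ℝ) : Prop :=
  ∀ h u u' : En d → ℝ, BE01F.L2 D h → BE01F.nrm D h ≤ 1 → Sl Ω h u → Sl Ω' h u' →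
    BE01F.nrm D (fun x => Ω.indicator u x - Ω'.indicator u' x) ≤ ENNReal.ofReal ε

/-- The spectral conditions: `n² om_0²` is not an eigenvalue for odd `3 ≤ n ≤ M`. -/
def Nrs (om : ℕ → ℝ) (M : ℕ) : Prop :=
  ∀ n : ℕ, Odd n → 3 ≤ n → n ≤ M → ∀ k, (n : ℝ) ^ 2 * om 0 ^ 2 ≠ om k ^ 2

end

end Pool.Agent.BEQ
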