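import Pool.Agent.BEQ.Defs

/-!
# Squad BEQ (MP_be01ff_an): generic domains. Statements.

THEOREM (GEN).  Let `d ≥ 2`, `D ⊂ ℝ^d` bounded and open, `P ∈ ℕ`.  In the set of the nonempty connected
open subsets of `D` with the distance `‖T_Ω - T_Ω'‖` (`T_Ω` the inverse of `- Δ` in `Ω`, extended by
zero to `L²(D)`) the domains with solutions with the sharp rate for all `α = 2, 4, …, 2P` contain an
OPEN AND DENSE set: for every `Ω`, `ε`, `δ` there are finitely many disjoint closed balls in `Ω`, sum of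
the radii `< δ`, such that `Ω' = Ω` minus the balls is connected, has distance at most `ε` from `Ω`,
and all domains in a neighbourhood of `Ω'` have such solutions.

PLAN.  Density: the row DEC of squad BEH (part S), which makes `n² λ_0` no eigenvalue for odd
`3 ≤ n ≤ M` and moves the first `N` eigenvalues by at most `ε'`; with `0 ≤ T' ≤ T` this gives
`‖T - T'‖` small (Ky Fan, row KYF).  Openness: the eigenvalues of `T` are continuous in the operator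
norm, and the order `M` of the final state theorem (`Uni`) depends only on `D`, `P` and an upper bound
of the first eigenvalue.
-/

namespace Pool.Agent.BEQ

open Set Filter Topology MeasureTheory
open scoped InnerProductSpace ENNReal
open Pool.Agent Pool.Agent.BE01 Pool.Agent.BEL Pool.Agent.BEH Pool.Agent.BEG

noncomputable section

/-! ## Part 1: operators of a Hilbert space -/

/-- QFO: the quadratic form (no hypotheses).  Let `V` = the closure of the span of the `v k` (complete).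
`h = P h + r`, `P` the orthogonal projection onto `V`, `T r = 0` (`zero`), and `P h = ∑ ⟪v k, h⟫ v k`
(`Orthonormal` family, Hilbert basis of `V`: `HilbertBasis.mk`, or `Orthonormal.hasSum_projection..`;
or: the partial sums `s_n` of `∑ ⟪v k, h⟫ v k` converge by Bessel, the limit `y` has the same
coefficients as `h`, so `T (h - y) = 0` by `zero`).  So `T h = ∑ μ k ⟪v k, h⟫ v k` and everything
follows; `∑ ⟪v k, h⟫² ≤ ‖h‖²` (Bessel), and for `g = μ' • h - T h`: the coefficients are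
`(μ' - μ k) ⟪v k, h⟫` and the rest is `μ' (h - y)`. -/
def QfoStmt : Prop := ∀ (H : Type) [NormedAddCommGroup H] [InnerProductSpace ℝ H]
  [CompleteSpace H] (T : H →L[ℝ] H) (v : ℕ → H) (μ : ℕ → ℝ), Dg T v μ →
  (∀ h k, ⟪T h, k⟫_ℝ = ⟪h, T k⟫_ℝ) ∧
  (∀ h, HasSum (fun k => μ k * ⟪v k, h⟫_ℝ ^ 2) ⟪T h, h⟫_ℝ) ∧
  (∀ h, 0 ≤ ⟪T h, h⟫_ℝ ∧ ⟪T h, h⟫_ℝ ≤ μ 0 * ‖h‖ ^ 2) ∧
  ∀ (h : H) (m : ℝ), ∃ r : ℝ, 0 ≤ r ∧ HasSum (fun k => ⟪v k, h⟫_ℝ ^ 2) (‖h‖ ^ 2 - r) ∧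
    HasSum (fun k => (m - μ k) ^ 2 * ⟪v k, h⟫_ℝ ^ 2) (‖m • h - T h‖ ^ 2 - m ^ 2 * r)

/-- EIP: perturbation of eigenvalues (uses QFO).  First: `μ 0 = ⟪T v0, v0⟫ ≤ ⟪T' v0, v0⟫ + η ≤
μ' 0 + η`, and the same with `T`, `T'` exchanged.  Second: `h = v' k'`, `m = μ' k'`: `‖m h - T h‖ =
‖(T' - T) h‖ ≤ η`.  If `|μ k - m| > η` for all `k` and `m > η` then by QFO
`η² ≥ ∑ (m - μ k)² c_k² + m² r ≥ η² (∑ c_k² + r) = η²`, with strict inequality (some `c_k ≠ 0` or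
`r ≠ 0`): contradiction. -/
def EipStmt : Prop := ∀ (H : Type) [NormedAddCommGroup H] [InnerProductSpace ℝ H]
  [CompleteSpace H] (T T' : H →L[ℝ] H) (v v' : ℕ → H) (μ μ' : ℕ → ℝ) (η : ℝ), Dg T v μ →
  Dg T' v' μ' → ‖T - T'‖ ≤ η →
  |μ 0 - μ' 0| ≤ η ∧ ∀ k', μ' k' ≤ η ∨ ∃ k, |μ k - μ' k'| ≤ η

/-- KYF: Ky Fan (uses QFO).  (i) For orthonormal `e_0, …, e_(n-1)`: `∑_j ⟪T e_j, e_j⟫ = ∑_k μ_k w_k`,
`w_k = ∑_j ⟪v_k, e_j⟫² ∈ [0, 1]` (Bessel for the `e_j`), `∑ w_k ≤ n` (Bessel for the `v_k`), so it is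
at most `∑_(k<n) μ_k` (`∑ (μ_k - μ_(n-1)) w_k ≤ ∑_(k<n) (μ_k - μ_(n-1))`).  (ii) `A = T - T' ≥ 0`,
`e_j = v' j`, `j < N`: `∑ ⟪A e_j, e_j⟫ ≤ ∑_(k<N) (μ_k - μ'_k) ≤ s`.  For a unit vector `y` orthogonal to
the `e_j`: (i) for `N + 1` vectors gives `⟪T y, y⟫ ≤ μ_N + ∑_(k<N) μ_k - ∑ ⟪T e_j, e_j⟫ ≤ μ_N + s`
(`⟪T e_j, e_j⟫ ≥ ⟪T' e_j, e_j⟫ = μ'_j`), and `⟪A y, y⟫ ≤ ⟪T y, y⟫`.  For `h = x + y`, `x` in the span: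
`⟪A h, h⟫ ≤ 2 ⟪A x, x⟫ + 2 ⟪A y, y⟫ ≤ 2 s ‖x‖² + 2 (μ_N + s) ‖y‖²` (`A ≥ 0`: Cauchy-Schwarz for the
form of `A`; `⟪A x, x⟫ ≤ ‖x‖² ∑ ⟪A e_j, e_j⟫`).  `A` is symmetric and nonnegative, so `‖A‖` is at most
the bound of its form. -/
def KyfStmt : Prop := ∀ (H : Type) [NormedAddCommGroup H] [InnerProductSpace ℝ H]
  [CompleteSpace H] (T T' : H →L[ℝ] H) (v v' : ℕ → H) (μ μ' : ℕ → ℝ) (N : ℕ) (s : ℝ), Dg T v μ →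
  Dg T' v' μ' → (∀ h, ⟪T' h, h⟫_ℝ ≤ ⟪T h, h⟫_ℝ) →
  ∑ k ∈ Finset.range N, (μ k - μ' k) ≤ s → ‖T - T'‖ ≤ 2 * (μ N + s)

/-! ## Part 2: domains -/

/-- TEX: the operator exists (uses `Pool.Agent.BEH.ExtStmt`).  Proof: `S = ι ∘ ι†` (`adjoint`), `E` the
extension by zero `L²(Ω) → L²(D)`, an isometry (take `ExtStmt` for `Ω ⊂ D`, with `ι_D` from
`Pool.Agent.BEL.H53.empA`), `E†` the restriction (`⟪E u, h⟫ = ∫_Ω u h`), `T = E S E†`.  `Spec.rel`: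
`⟪ι† (b k), G⟫ = ⟪b k, ι G⟫ = om_k⁻¹ ⟪e k, G⟫`, so `ι† (b k) = om_k⁻¹ e k`, `ι (e k) = om_k⁻¹ b k`
(coefficients), `S (b k) = (om_k²)⁻¹ b k`.  `E† E = 1`.  `zero`: all `⟪b k, E† h⟫ = 0`, so `E† h = 0`.
`Rv`: `f = E† h`, `F = ι† f ∈ VV Ω`, `u = ι F` (`Grf`), and
`∫ ⟪F, ∇ψ⟫ = ⟪ι† f, ∇ψ⟫ = ⟪f, ι ∇ψ⟫ = ∫ f ψ` (`Emb2`). -/
def TexStmt : Prop := ∀ (d : ℕ) (D Ω : Set (En d)) (ι : VV Ω →L[ℝ] Lp ℝ 2 (mu Ω))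
  (b : HilbertBasis ℕ ℝ (Lp ℝ 2 (mu Ω))) (e : HilbertBasis ℕ ℝ (VV Ω)) (om : ℕ → ℝ), 0 < d →
  Dom D → Ω ⊆ D → Ok Ω ι b e om →
  ∃ (T : Lp ℝ 2 (mu D) →L[ℝ] Lp ℝ 2 (mu D)) (v : ℕ → Lp ℝ 2 (mu D)), Rv D Ω T ∧
    Dg T v (fun k => (om k ^ 2)⁻¹)

/-- MOT: monotonicity (uses `Pool.Agent.BEO.WeoStmt`, `Pool.Agent.BEH.ExtStmt`).  Proof: `h : L²(D)`;
`f, u, F` for `Ω` and `f', u', F'` for `Ω'` (`Rv`).  `⟪T h, h⟫ = ∫_Ω u f = ‖F‖²` (WEO with `v = u`), the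
same for `Ω'`.  The extensions `(E u', E F')` by zero are in `H10 Ω` (EXT with the embeddings of
`empA` and `Grf`, or directly from the definition: test functions of `Ω'` are test functions of
`Ω`), so `∫_Ω ⟪F, E F'⟫ = ∫_Ω f (E u') = ∫_(Ω') f' u' = ‖F'‖²` (WEO in `Ω`), and by Cauchy-Schwarz
`‖F'‖² ≤ ‖F‖ ‖F'‖`. -/
def MotStmt : Prop := ∀ (d : ℕ) (D Ω Ω' : Set (En d)) (T T' : Lp ℝ 2 (mu D) →L[ℝ] Lp ℝ 2 (mu D)),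
  0 < d → Dom D → Dom Ω → Dom Ω' → Ω ⊆ D → Ω' ⊆ Ω → Rv D Ω T → Rv D Ω' T' →
  ∀ h, ⟪T' h, h⟫_ℝ ≤ ⟪T h, h⟫_ℝ

/-- NEA: the distance for functions is the operator norm (uses `Pool.Agent.BEG.UnqStmt`;
`h10_of`, `h10_to`, `nrm_of` of `Helper70_BE01/Conv.lean`).  `→`: for `h : L²(D)` with `‖h‖ ≤ 1` apply
`Near` to the function `h` and the functions `u, u'` of `Rv` (`f = h` almost everywhere in `Ω`, so
`Sl`): `‖T h - T' h‖ ≤ ε`; `ContinuousLinearMap.opNorm_le_of_unit_norm` or scaling.  `←`: `h`, `u`,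
`u'` functions; the class of `h`; `u` is almost everywhere equal to the function of `Rv` by UNQ (its
gradient field and `F` of `Sl` solve the same equation), and
`nrm D (…) = ofReal ‖T h - T' h‖ ≤ ofReal (ε ‖h‖)`. -/
def NeaStmt : Prop := ∀ (d : ℕ) (D Ω Ω' : Set (En d)) (T T' : Lp ℝ 2 (mu D) →L[ℝ] Lp ℝ 2 (mu D))
  (ε : ℝ), 0 < d → Dom D → Dom Ω → Dom Ω' → Ω ⊆ D → Ω' ⊆ D → Rv D Ω T → Rv D Ω' T' → 0 ≤ ε →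
  (Near D Ω Ω' ε ↔ ‖T - T'‖ ≤ ε)

/-- DEG: the row DEC of squad BEH with control of the first `L` eigenvalues (uses MMX, RED, SYD, GEO,
UPP, LOW, SMD of BEH, as DEC).  Copy `Pool/Agent/Helper66_BEH/DEC.lean`: take `N ≥ L` and
`ε ≤ ε'/3`; UPP gives `om'_k² ≤ om_k² + 3 ε` for all `k < N`. -/
def DegStmt : Prop := ∀ (d : ℕ), 2 ≤ d → ∀ (Ω : Set (En d)) (ι : VV Ω →L[ℝ] Lp ℝ 2 (mu Ω))
  (b : HilbertBasis ℕ ℝ (Lp ℝ 2 (mu Ω))) (e : HilbertBasis ℕ ℝ (VV Ω)) (om : ℕ → ℝ) (M L : ℕ)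
  (δ ε' : ℝ), Ok Ω ι b e om → IsConnected Ω → 0 < δ → 0 < ε' →
  ∃ (J : ℕ) (x : Fin J → En d) (r : Fin J → ℝ),
    (∀ j, 0 < r j ∧ Metric.closedBall (x j) (r j) ⊆ Ω) ∧
    (∀ i j, i ≠ j → Disjoint (Metric.closedBall (x i) (r i)) (Metric.closedBall (x j) (r j))) ∧
    ∑ j, r j < δ ∧ IsConnected (Hl Ω x r) ∧ Dom (Hl Ω x r) ∧
    ∀ (ι' : VV (Hl Ω x r) →L[ℝ] Lp ℝ 2 (mu (Hl Ω x r)))
      (b' : HilbertBasis ℕ ℝ (Lp ℝ 2 (mu (Hl Ω x r)))) (e' : HilbertBasis ℕ ℝ (VV (Hl Ω x r)))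
      (om' : ℕ → ℝ), Ok (Hl Ω x r) ι' b' e' om' → om' 0 ^ 2 ≤ om 0 ^ 2 + 2 ∧ Nrs om' M ∧
      ∀ k, k < L → om' k ^ 2 ≤ om k ^ 2 + ε'

/-- DNS: density (uses TEX, MOT, NEA, DEG, KYF; EMP, EIG imported as
`Pool.Agent.BEL.H53.empA`, `.eigA`).  `L` with `(om_L²)⁻¹ ≤ ε/4` (`Spec.top`), `ε'` with
`L ε'/om_0⁴ ≤ ε/4`.  DEG; `Ok` system of `Ω' = Hl Ω x r` (EMP, EIG); `T`, `T'` (TEX), `T' ≤ T` (MOT).
`(om_k²)⁻¹ - (om'_k²)⁻¹ = (om'_k² - om_k²)/(om_k² om'_k²) ≤ ε'/om_0⁴` for `k < L` (`om_0 ≤ om_k`, and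
`om'_k² ≥ om_0²` by MMX or from `T' ≤ T`; or: if the numerator is negative there is nothing to do).
KYF with `N = L`, `s = ε/4`: `‖T - T'‖ ≤ ε`; NEA. -/
def DnsStmt : Prop := ∀ (d : ℕ), 2 ≤ d → ∀ (D Ω : Set (En d)) (ι : VV Ω →L[ℝ] Lp ℝ 2 (mu Ω))
  (b : HilbertBasis ℕ ℝ (Lp ℝ 2 (mu Ω))) (e : HilbertBasis ℕ ℝ (VV Ω)) (om : ℕ → ℝ) (M : ℕ)
  (δ ε : ℝ), Dom D → Ω ⊆ D → Ok Ω ι b e om → IsConnected Ω → 0 < δ → 0 < ε →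
  ∃ (J : ℕ) (x : Fin J → En d) (r : Fin J → ℝ),
    (∀ j, 0 < r j ∧ Metric.closedBall (x j) (r j) ⊆ Ω) ∧
    (∀ i j, i ≠ j → Disjoint (Metric.closedBall (x i) (r i)) (Metric.closedBall (x j) (r j))) ∧
    ∑ j, r j < δ ∧ IsConnected (Hl Ω x r) ∧ Dom (Hl Ω x r) ∧ Near D Ω (Hl Ω x r) ε ∧
    ∀ (ι' : VV (Hl Ω x r) →L[ℝ] Lp ℝ 2 (mu (Hl Ω x r)))
      (b' : HilbertBasis ℕ ℝ (Lp ℝ 2 (mu (Hl Ω x r)))) (e' : HilbertBasis ℕ ℝ (VV (Hl Ω x r)))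
      (om' : ℕ → ℝ), Ok (Hl Ω x r) ι' b' e' om' → om' 0 ^ 2 ≤ om 0 ^ 2 + 2 ∧ Nrs om' M

/-- OSP: openness of the spectral conditions (uses EIP).  `μ k = (om k²)⁻¹`, the same with primes.
`μ_k → 0`, and `μ_0/n² ≠ μ_k` for odd `3 ≤ n ≤ M` and all `k`, so there is `θ > 0` with
`|μ_0/n² - μ_k| > θ` for these `n` and all `k` (finitely many `k` with `μ_k ≥ μ_0/(2M²)`, the others
are at distance `≥ μ_0/(2M²)`).  `η` with `4 η ≤ θ`, `η (M² + 1) < μ_0/2`, and so small that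
`(μ_0 - η)⁻¹ ≤ om_0² + 1`.  EIP: `|μ_0 - μ'_0| ≤ η`, so `om'_0² ≤ om_0² + 1`.  If
`n² om'_0² = om'_k²`, i.e. `μ'_k = μ'_0/n²`: `μ'_k ≥ (μ_0 - η)/M² > η`, so `|μ_j - μ'_0/n²| ≤ η` for
some `j`, `|μ_j - μ_0/n²| ≤ 2 η`: contradiction. -/
def OspStmt : Prop := ∀ (H : Type) [NormedAddCommGroup H] [InnerProductSpace ℝ H]
  [CompleteSpace H] (T : H →L[ℝ] H) (v : ℕ → H) (om : ℕ → ℝ) (M : ℕ), (∀ k, 0 < om k) →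
  Tendsto om atTop atTop → Dg T v (fun k => (om k ^ 2)⁻¹) → Nrs om M →
  ∃ η : ℝ, 0 < η ∧ ∀ (T' : H →L[ℝ] H) (v' : ℕ → H) (om' : ℕ → ℝ), (∀ k, 0 < om' k) →
    Dg T' v' (fun k => (om' k ^ 2)⁻¹) → ‖T - T'‖ ≤ η → om' 0 ^ 2 ≤ om 0 ^ 2 + 1 ∧ Nrs om' M

/-- UNM: the order (uses EGK, SMD, STD, POW of BEH; EMP, EIG imported).  The last part of
`Helper69_BEH/DED.lean`: `C` of STD, `V = |D| + 1`, `B₁ = max B (C B^(d/4))`; for `1 ≤ p ≤ P` `M_p` from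
`Uni d` for `D, p, 1, B₁, (V^p)⁻¹`, `M = max M_p`.  `Ω ⊂ D` connected: `om_0 < om_1` (SMD), `l = om_0² ≤
B`, `φ = b 0`, `|φ| ≤ C l^(d/4) ≤ B₁`, POW, EGK. -/
def UnmStmt : Prop := ∀ (d : ℕ), 2 ≤ d → Uni d → ∀ (D : Set (En d)) (P : ℕ) (B : ℝ), Dom D →
  ∃ M : ℕ, ∀ (Ω : Set (En d)) (ι : VV Ω →L[ℝ] Lp ℝ 2 (mu Ω))
    (b : HilbertBasis ℕ ℝ (Lp ℝ 2 (mu Ω))) (e : HilbertBasis ℕ ℝ (VV Ω)) (om : ℕ → ℝ),
    Ok Ω ι b e om → IsConnected Ω → Ω ⊆ D → om 0 ^ 2 ≤ B → Nrs om M →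
    ∀ p : ℕ, 1 ≤ p → p ≤ P → Rt Ω 1 ((2 * p : ℕ) : ℝ)

/-- GEN: THE THEOREM (uses TEX, NEA, DNS, OSP, UNM; EMP, EIG imported).  `Ok` system of `Ω`, `M` of UNM
for `B = om_0² + 3`, DNS with `M`: `Ω'`, its `Ok` system, `om'_0² ≤ om_0² + 2`, `T'` (TEX).  OSP: `η`.
Let `Ω'' ⊂ D` be open and connected with `Near D Ω' Ω'' η`: `Ok` system, `T''`, `‖T' - T''‖ ≤ η` (NEA),
`om''_0² ≤ om'_0² + 1 ≤ B`, `Nrs om'' M`: UNM. -/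
def GenStmt : Prop := ∀ (d : ℕ), 2 ≤ d → Uni d → ∀ (D Ω : Set (En d)) (P : ℕ) (δ ε : ℝ), Dom D →
  IsOpen Ω → IsConnected Ω → Ω ⊆ D → 0 < δ → 0 < ε →
  ∃ (J : ℕ) (x : Fin J → En d) (r : Fin J → ℝ),
    (∀ j, 0 < r j ∧ Metric.closedBall (x j) (r j) ⊆ Ω) ∧
    (∀ i j, i ≠ j → Disjoint (Metric.closedBall (x i) (r i)) (Metric.closedBall (x j) (r j))) ∧
    ∑ j, r j < δ ∧ IsConnected (Hl Ω x r) ∧ Near D Ω (Hl Ω x r) ε ∧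
    ∃ η : ℝ, 0 < η ∧ ∀ Ω'' : Set (En d), IsOpen Ω'' → IsConnected Ω'' → Ω'' ⊆ D →
      Near D (Hl Ω x r) Ω'' η → ∀ p : ℕ, 1 ≤ p → p ≤ P → Rt Ω'' 1 ((2 * p : ℕ) : ℝ)

end

end Pool.Agent.BEQ
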